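import Pool.Agent.Helper67.VF.RF

/-!
# Project RF (MP_266b34_co), packet INR: the induction on `r`
-/

set_option autoImplicit false

namespace Pool.Agent.Helper81.VF

open Pool.Agent.Helper27.VF Pool.Agent.Helper67.RF

universe u

theorem inf_of_stg {A W : Type u} [Group A] [MulAction A W] {G G₀ : SimpleGraph W} {w : W}
    {p : Ultrafilter W} (h : Stg A G G₀ w p) : Infinite A := by
  by_contra hA
  rw [not_infinite_iff_finite] at hA
  obtain ⟨F, hF, hcov⟩ := h.fin
  have hW : (Set.univ : Set W).Finite := by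
    refine ((Set.finite_univ (α := A)).image2 (fun a f => a • f) hF).subset ?_
    intro x _
    obtain ⟨a, f, hf, rfl⟩ := hcov x
    exact ⟨a, Set.mem_univ a, f, hf, rfl⟩
  exact h.nonp _ hW Filter.univ_mem

/-- **INR.** -/
theorem inr (hD : DraStmt.{u}) (hX : DrxStmt.{u}) (hR : RksStmt.{u}) (hT : TofStmt.{u}) :
    InrStmt.{u} := by
  intro r
  induction r using Nat.strong_induction_on with
  | _ r ih =>
    intro A W _ _ G G₀ w p htf hrk h
    have := inf_of_stg h
    by_cases hcut : ∃ n : ℕ, ∃ c, IsCut G c ∧ (sep c).ncard = n ∧ ∃ a b : A, Dis p c a b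
    · classical
      obtain ⟨c, hc, hcard, a, b, hab⟩ := Nat.find_spec hcut
      set k := Nat.find hcut with hk
      have hMn : Mn A G p k := by
        intro c' hc' a' b' hab'
        exact Nat.find_min' hcut ⟨c', hc', rfl, a', b', hab'⟩
      have hSS : (SS A G p k).Nonempty := ⟨c, hc, hcard, a, b, hab⟩
      obtain ⟨r', hr', hB⟩ := hR A (BB A G p k) r hrk
        (fun M _ _ f hf => hD A W G G₀ w p h k hMn htf M f hf)
        (hX A W G G₀ w p h k hMn htf hSS)
      obtain ⟨W', _, G', G₀', w', p', hS', hcon⟩ := hT A W G G₀ w p h k hMn htf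
      refine hcon (ih r' (by omega) (BB A G p k) W' G' G₀' w' p' ?_ hB hS')
      intro a n hn han
      have h1 : (a : A) ^ n = 1 := by
        have := congrArg Subtype.val han
        simpa using this
      exact Subtype.ext (htf _ n hn h1)
    · refine ⟨Set.univ, Set.infinite_univ, ?_⟩
      intro a _ b _ c hc hab
      exact hcut ⟨_, c, hc, rfl, a, b, hab⟩

end Pool.Agent.Helper81.VF
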