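import Pool.Agent.Helper38.VF.Goals2

/-!
# Project VTF (MP_266b34_co): packets KUR, RTR, ACT (shadow)
-/

set_option autoImplicit false

namespace Pool.Agent.Helper81.VF

open Pool.Agent.Helper38.VF

universe u

variable {X Y : Type u}

theorem two_pos' : 0 < (2 : ENNReal).toReal := by norm_num

/-- `g ↦ g ∘ φ`. -/
noncomputable def pull (φ : X → Y) (hφ : Function.Injective φ) : L2 Y →L[ℝ] L2 X := by
  classical
  have key : ∀ (g : L2 Y) (s : Finset X), ∑ x ∈ s, ‖g (φ x)‖ ^ (2 : ENNReal).toReal ≤
      ‖g‖ ^ (2 : ENNReal).toReal := by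
    intro g s
    have h1 := lp.sum_rpow_le_norm_rpow two_pos' g (s.map ⟨φ, hφ⟩)
    rwa [Finset.sum_map] at h1
  exact LinearMap.mkContinuous
    { toFun := fun g => ⟨fun x => g (φ x), memℓp_gen' (key g)⟩
      map_add' := by
        intro f g
        ext x
        simp
      map_smul' := by
        intro c g
        ext x
        simp } 1 (by
      intro g
      rw [one_mul]
      exact lp.norm_le_of_forall_sum_le two_pos' (norm_nonneg g) (key g))

theorem pull_apply (φ : X → Y) (hφ : Function.Injective φ) (g : L2 Y) (x : X) :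
    pull φ hφ g x = g (φ x) := rfl

open scoped Classical in
/-- extension by zero -/
noncomputable def push (φ : X → Y) (hφ : Function.Injective φ) : L2 X →L[ℝ] L2 Y := by
  have key : ∀ (f : L2 X) (s : Finset Y),
      ∑ y ∈ s, ‖Function.extend φ (fun x => f x) (fun _ => (0 : ℝ)) y‖ ^ (2 : ENNReal).toReal ≤
      ‖f‖ ^ (2 : ENNReal).toReal := by
    intro f s
    have h1 := lp.sum_rpow_le_norm_rpow two_pos' f (s.preimage φ hφ.injOn)
    refine le_trans (le_of_eq ?_) h1
    rw [← Finset.sum_preimage φ s hφ.injOn]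
    · refine Finset.sum_congr rfl fun x _ => ?_
      rw [hφ.extend_apply]
    · intro y _ hy
      rw [Function.extend_apply' _ _ _ (by simpa using hy)]
      simp
  exact LinearMap.mkContinuous
    { toFun := fun f => ⟨Function.extend φ (fun x => f x) (fun _ => (0 : ℝ)), memℓp_gen' (key f)⟩
      map_add' := by
        intro f g
        ext y
        by_cases hy : ∃ x, φ x = y
        · obtain ⟨x, rfl⟩ := hy
          simp [hφ.extend_apply]
        · simp [Function.extend_apply' _ _ _ hy]
      map_smul' := by
        intro c g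
        ext y
        by_cases hy : ∃ x, φ x = y
        · obtain ⟨x, rfl⟩ := hy
          simp [hφ.extend_apply]
        · simp [Function.extend_apply' _ _ _ hy] } 1 (by
      intro g
      rw [one_mul]
      exact lp.norm_le_of_forall_sum_le two_pos' (norm_nonneg g) (key g))

theorem push_apply (φ : X → Y) (hφ : Function.Injective φ) (f : L2 X) (x : X) :
    push φ hφ f (φ x) = f x := by
  change Function.extend φ (fun x => f x) (fun _ => (0 : ℝ)) (φ x) = f x
  rw [hφ.extend_apply]

theorem push_apply' (φ : X → Y) (hφ : Function.Injective φ) (f : L2 X) (y : Y)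
    (hy : ¬ ∃ x, φ x = y) : push φ hφ f y = 0 := by
  change Function.extend φ (fun x => f x) (fun _ => (0 : ℝ)) y = 0
  rw [Function.extend_apply' _ _ _ hy]

theorem inj_pair {k : ℕ} {A : Type u} (i : Fin k) : Function.Injective (fun b : A => (i, b)) :=
  fun _ _ h => (Prod.ext_iff.1 h).2

theorem pull_norm (φ : X → Y) (hφ : Function.Injective φ) (g : L2 Y) : ‖pull φ hφ g‖ ≤ ‖g‖ := by
  refine lp.norm_le_of_forall_sum_le two_pos' (norm_nonneg g) fun s => ?_
  have h1 := lp.sum_rpow_le_norm_rpow two_pos' g (s.map ⟨φ, hφ⟩)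
  rwa [Finset.sum_map] at h1

/-- **RTR.** -/
theorem rtr : RtrStmt.{u} := by
  intro A _ k h
  have i1 : Function.Injective (fun z : Fin k × A => (z.1, z.2 * h)) := by
    intro z z' hz
    obtain ⟨h1, h2⟩ := Prod.ext_iff.1 hz
    exact Prod.ext h1 (mul_right_cancel h2)
  have i2 : Function.Injective (fun z : Fin k × A => (z.1, z.2 * h⁻¹)) := by
    intro z z' hz
    obtain ⟨h1, h2⟩ := Prod.ext_iff.1 hz
    exact Prod.ext h1 (mul_right_cancel h2)
  have e1 : ∀ f, pull _ i2 (pull _ i1 f) = f := by
    intro f
    ext z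
    rw [pull_apply, pull_apply]
    simp
  have e2 : ∀ f, pull _ i1 (pull _ i2 f) = f := by
    intro f
    ext z
    rw [pull_apply, pull_apply]
    simp
  refine ⟨{ toFun := pull _ i1, invFun := pull _ i2, left_inv := e1, right_inv := e2,
            map_add' := map_add _, map_smul' := map_smul _, norm_map' := ?_ }, fun f z => rfl⟩
  intro f
  refine le_antisymm (pull_norm _ i1 f) ?_
  conv_lhs => rw [← e1 f]
  exact pull_norm _ i2 _

/-- **KUR.** -/
theorem kur : KurStmt.{u} := by
  intro A k
  let F : (Fin k → L2 A) →L[ℝ] L2 (Fin k × A) :=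
    ∑ i : Fin k, (push (fun b : A => (i, b)) (inj_pair i)).comp (ContinuousLinearMap.proj i)
  let G : L2 (Fin k × A) →L[ℝ] (Fin k → L2 A) :=
    ContinuousLinearMap.pi fun i => pull (fun b : A => (i, b)) (inj_pair i)
  have hF : ∀ e i b, F e (i, b) = e i b := by
    intro e i b
    have h1 : F e = ∑ j : Fin k, push (fun b : A => (j, b)) (inj_pair j) (e j) := by
      simp [F]
    rw [h1, lp.coeFn_sum, Finset.sum_apply, Finset.sum_eq_single i]
    · exact push_apply (fun b : A => (i, b)) (inj_pair i) (e i) b
    · intro j _ hj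
      refine push_apply' _ _ _ _ ?_
      rintro ⟨x, hx⟩
      exact hj (Prod.ext_iff.1 hx).1
    · intro hi
      exact absurd (Finset.mem_univ i) hi
  refine ⟨ContinuousLinearEquiv.equivOfInverse F G ?_ ?_, hF⟩
  · intro e
    funext i
    ext b
    exact hF e i b
  · intro f
    ext z
    exact hF (G f) z.1 z.2

/-- **ACT.** -/
theorem act : ActStmt.{u} := by
  intro A _
  have hi : ∀ g : A, Function.Injective (fun a : A => g⁻¹ * a) := fun g => mul_right_injective g⁻¹
  have h1 : ∀ f : L2 A, pull _ (hi 1) f = f := by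
    intro f
    ext a
    rw [pull_apply]
    simp
  have h2 : ∀ (g h : A) (f : L2 A), pull _ (hi (g * h)) f = pull _ (hi g) (pull _ (hi h) f) := by
    intro g h f
    ext a
    rw [pull_apply, pull_apply, pull_apply]
    simp [mul_assoc]
  exact ⟨{ smul := fun g f => pull _ (hi g) f,
           one_smul := h1,
           mul_smul := h2,
           smul_zero := fun g => map_zero (pull _ (hi g)),
           smul_add := fun g f f' => map_add (pull _ (hi g)) f f' }, fun g f a => rfl⟩

end Pool.Agent.Helper81.VF
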