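import Pool.Agent.Helper27.VF.Goals

/-!
# Project VF (MP_266b34_co), packet HAL: Marshall Hall's theorem, weak form
-/

set_option autoImplicit false

namespace Pool.Agent.Helper81.VF

open Pool.Agent.Helper27.VF

open scoped Classical in
/-- **HAL.** -/
theorem hal : HalStmt := by
  intro n B hB hne
  obtain ⟨T, hT⟩ := hB
  obtain ⟨x, hx⟩ : ∃ x, x ∉ B := by
    by_contra h
    push Not at h
    exact hne (Subgroup.eq_top_iff' B |>.2 h)
  obtain ⟨o, ho⟩ : ∃ o : FreeGroup (Fin n) ⧸ B, o = ((1 : FreeGroup (Fin n)) : _ ⧸ B) := ⟨_, rfl⟩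
  have hoB : ∀ g : FreeGroup (Fin n), g • o = o ↔ g ∈ B := by
    intro g
    rw [ho, MulAction.Quotient.smul_coe, smul_eq_mul, mul_one, QuotientGroup.eq, mul_one]
    exact inv_mem_iff
  obtain ⟨Δ, hΔ⟩ : ∃ Δ : Finset (FreeGroup (Fin n) ⧸ B), Δ = (insert x T).biUnion fun g =>
      (g.toWord.tails.toFinset).image (fun l => FreeGroup.mk l • o) := ⟨_, rfl⟩
  have hmem : ∀ g ∈ insert x T, ∀ l, l <:+ g.toWord → FreeGroup.mk l • o ∈ Δ := by
    intro g hg l hl
    rw [hΔ, Finset.mem_biUnion]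
    refine ⟨g, hg, Finset.mem_image.2 ⟨l, ?_, rfl⟩⟩
    rw [List.mem_toFinset, List.mem_tails]
    exact hl
  have hoΔ : o ∈ Δ := by
    have := hmem x (Finset.mem_insert_self _ _) [] (List.nil_suffix)
    rwa [← FreeGroup.one_eq_mk, one_smul] at this
  have hperm : ∀ i : Fin n, ∃ π : Equiv.Perm {d // d ∈ Δ}, ∀ (d : {d // d ∈ Δ})
      (h : FreeGroup.of i • (d : FreeGroup (Fin n) ⧸ B) ∈ Δ), π d = ⟨_, h⟩ := by
    intro i
    let e : {d : {d // d ∈ Δ} // FreeGroup.of i • (d : FreeGroup (Fin n) ⧸ B) ∈ Δ} ≃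
        {d : {d // d ∈ Δ} // (FreeGroup.of i)⁻¹ • (d : FreeGroup (Fin n) ⧸ B) ∈ Δ} :=
      { toFun := fun d => ⟨⟨FreeGroup.of i • d.1.1, d.2⟩, by
          rw [inv_smul_smul]; exact d.1.2⟩
        invFun := fun d => ⟨⟨(FreeGroup.of i)⁻¹ • d.1.1, d.2⟩, by
          rw [smul_inv_smul]; exact d.1.2⟩
        left_inv := by
          intro d
          apply Subtype.ext
          apply Subtype.ext
          exact inv_smul_smul _ _
        right_inv := by
          intro d
          apply Subtype.ext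
          apply Subtype.ext
          exact smul_inv_smul _ _ }
    refine ⟨e.extendSubtype, fun d h => ?_⟩
    rw [Equiv.extendSubtype_apply_of_mem e d h]
    rfl
  choose π hπ using hperm
  obtain ⟨φ, hφ⟩ : ∃ φ : FreeGroup (Fin n) →* Equiv.Perm {d // d ∈ Δ},
      φ = FreeGroup.lift π := ⟨_, rfl⟩
  have hφi : ∀ i, φ (FreeGroup.of i) = π i := by
    intro i
    rw [hφ, FreeGroup.lift_apply_of]
  have key : ∀ l : List (Fin n × Bool), (∀ l', l' <:+ l → FreeGroup.mk l' • o ∈ Δ) →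
      ((φ (FreeGroup.mk l) ⟨o, hoΔ⟩ : {d // d ∈ Δ}) : FreeGroup (Fin n) ⧸ B) =
        FreeGroup.mk l • o := by
    intro l
    induction l with
    | nil =>
      intro _
      rw [← FreeGroup.one_eq_mk, map_one, one_smul]
      rfl
    | cons a l ih =>
      intro h
      have h1 := ih (fun l' hl' => h l' (hl'.trans (List.suffix_cons _ _)))
      have hl : FreeGroup.mk l • o ∈ Δ := h l (List.suffix_cons _ _)
      have hal : FreeGroup.mk (a :: l) • o ∈ Δ := h _ List.suffix_rfl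
      have e1 : FreeGroup.mk (a :: l) = FreeGroup.mk [a] * FreeGroup.mk l := by
        rw [FreeGroup.mul_mk]; rfl
      have h2 : φ (FreeGroup.mk l) ⟨o, hoΔ⟩ = ⟨FreeGroup.mk l • o, hl⟩ := Subtype.ext h1
      rw [e1, map_mul, Equiv.Perm.mul_apply, h2]
      obtain ⟨i, b⟩ := a
      cases b
      · have e2 : FreeGroup.mk [(i, false)] = (FreeGroup.of i)⁻¹ := by
          rw [FreeGroup.of, FreeGroup.inv_mk]; rfl
        have e3 : FreeGroup.of i • (FreeGroup.mk ((i, false) :: l) • o) = FreeGroup.mk l • o := by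
          rw [e1, e2, smul_smul, mul_inv_cancel_left]
        have h3 := hπ i ⟨_, hal⟩ (by rw [e3]; exact hl)
        have h4 : π i ⟨_, hal⟩ = ⟨FreeGroup.mk l • o, hl⟩ := by
          rw [h3]
          exact Subtype.ext e3
        have e5 : FreeGroup.mk ((i, false) :: l) • o = ((FreeGroup.of i)⁻¹ * FreeGroup.mk l) • o := by
          rw [e1, e2]
        rw [e2, map_inv, hφi, Equiv.Perm.inv_def, ← h4, Equiv.symm_apply_apply]
        exact e5
      · have e2 : FreeGroup.mk [(i, true)] = FreeGroup.of i := rfl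
        have e3 : FreeGroup.of i • (FreeGroup.mk l • o) = FreeGroup.mk ((i, true) :: l) • o := by
          rw [e1, e2, smul_smul]
        have h3 := hπ i ⟨_, hl⟩ (by rw [e3]; exact hal)
        rw [e2, hφi, h3]
        exact smul_smul _ _ _
  have key2 : ∀ g ∈ insert x T,
      ((φ g ⟨o, hoΔ⟩ : {d // d ∈ Δ}) : FreeGroup (Fin n) ⧸ B) = g • o := by
    intro g hg
    have h1 := key g.toWord (hmem g hg)
    rwa [FreeGroup.mk_toWord] at h1
  refine ⟨(MulAction.stabilizer (Equiv.Perm {d // d ∈ Δ}) (⟨o, hoΔ⟩ : {d // d ∈ Δ})).comap φ,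
    ?_, ?_, ?_⟩
  · refine le_trans hT.ge ?_
    rw [Subgroup.closure_le]
    intro g hg
    have hgB : g ∈ B := hT.le (Subgroup.subset_closure hg)
    rw [SetLike.mem_coe, Subgroup.mem_comap, MulAction.mem_stabilizer_iff, Equiv.Perm.smul_def]
    apply Subtype.ext
    rw [key2 g (Finset.mem_insert_of_mem hg)]
    exact (hoB g).2 hgB
  · intro htop
    have h1 : x ∈ (MulAction.stabilizer (Equiv.Perm {d // d ∈ Δ})
        (⟨o, hoΔ⟩ : {d // d ∈ Δ})).comap φ := by rw [htop]; exact Subgroup.mem_top x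
    rw [Subgroup.mem_comap, MulAction.mem_stabilizer_iff, Equiv.Perm.smul_def] at h1
    have h2 := key2 x (Finset.mem_insert_self _ _)
    rw [h1] at h2
    exact hx ((hoB x).1 h2.symm)
  · have h1 : φ.ker.FiniteIndex := Subgroup.finiteIndex_ker φ
    refine Subgroup.finiteIndex_of_le (H := φ.ker) ?_
    intro g hg
    rw [MonoidHom.mem_ker] at hg
    rw [Subgroup.mem_comap, MulAction.mem_stabilizer_iff, hg, one_smul]

end Pool.Agent.Helper81.VF
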