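import Pool.Agent.Helper38.VF.Goals2

/-!
# Project VTF (MP_266b34_co): packet TR1 (shadow)
-/

set_option autoImplicit false

namespace Pool.Agent.Helper81.VF

open Pool.Agent.Helper38.VF

universe u

open scoped Classical in
/-- the indicator of `x` -/
noncomputable def dl {X : Type u} (x : X) : L2 X := lp.single 2 x (1 : ℝ)

theorem dl_self {X : Type u} (x : X) : (dl x) x = 1 := by
  classical
  unfold dl
  exact lp.single_apply_self (E := fun _ : X => ℝ) 2 x (1 : ℝ)

theorem dl_ne {X : Type u} {x y : X} (h : y ≠ x) : (dl x) y = 0 := by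
  classical
  unfold dl
  exact lp.single_apply_ne (E := fun _ : X => ℝ) 2 x (1 : ℝ) h

theorem hasSum_dl {X : Type u} (f : L2 X) : HasSum (fun x => f x • dl x) f := by
  classical
  have h := lp.hasSum_single (E := fun _ : X => ℝ) (p := 2) (by norm_num) f
  have e : (fun x => f x • dl x) = fun x => lp.single 2 x (f x) := by
    funext x
    ext y
    by_cases hy : y = x
    · subst hy
      rw [lp.coeFn_smul, Pi.smul_apply, dl_self, lp.single_apply_self]
      simp
    · rw [lp.coeFn_smul, Pi.smul_apply, dl_ne hy, lp.single_apply_ne _ _ _ hy, smul_zero]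
  rw [e]
  exact h

/-- evaluation at `x` -/
theorem exists_ev {X : Type u} (x : X) : ∃ E : L2 X →L[ℝ] ℝ, ∀ f, E f = f x := by
  refine ⟨LinearMap.mkContinuous { toFun := fun f => f x, map_add' := ?_, map_smul' := ?_ } 1 ?_,
    fun f => rfl⟩
  · intro f g; rfl
  · intro c f; rfl
  · intro f
    rw [one_mul]
    exact lp.norm_apply_le_norm (by norm_num) f x

theorem hasSum_comp {X Y : Type u} (P : L2 X →L[ℝ] L2 Y) (f : L2 X) (y : Y) :
    HasSum (fun x => f x * P (dl x) y) (P f y) := by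
  obtain ⟨E, hE⟩ := exists_ev y
  have h := (E.comp P).hasSum (hasSum_dl f)
  have e : (fun x => f x * P (dl x) y) = (E.comp P) ∘ fun x => f x • dl x := by
    funext x
    rw [Function.comp_apply, map_smul, ContinuousLinearMap.comp_apply, hE, smul_eq_mul]
  rw [e, ← hE]
  exact h

theorem tr'_eq {A : Type u} [Group A] {n : ℕ} (Q : L2 (Fin n × A) →L[ℝ] L2 (Fin n × A)) :
    tr' Q = ∑ j : Fin n, (Q (dl (j, (1 : A)))) (j, 1) := by
  classical
  have e : ∀ j : Fin n, dl (j, (1 : A)) = (lp.single 2 (j, (1 : A)) (1 : ℝ) : L2 (Fin n × A)) := by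
    intro j
    ext y
    by_cases hy : y = (j, 1)
    · subst hy
      rw [dl_self, lp.single_apply_self]
    · rw [dl_ne hy, lp.single_apply_ne _ _ _ hy]
  unfold tr'
  refine Finset.sum_congr rfl fun j _ => ?_
  rw [e j]

theorem eqv_mat {A : Type u} [Group A] {m n : ℕ} {C : L2 (Fin m × A) →L[ℝ] L2 (Fin n × A)}
    (hC : Eqv C) (i : Fin n) (j : Fin m) (a b h : A) :
    C (dl (j, b)) (i, a) = C (dl (j, b * h)) (i, a * h) := by
  refine hC h (dl (j, b * h)) (dl (j, b)) ?_ (i, a)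
  intro z
  by_cases hz : z = (j, b)
  · subst hz
    rw [dl_self, dl_self]
  · rw [dl_ne hz, dl_ne]
    intro h1
    apply hz
    obtain ⟨h2, h3⟩ := Prod.ext_iff.1 h1
    exact Prod.ext h2 (mul_right_cancel h3)

theorem tr_comp {A : Type u} [Group A] {m n : ℕ}
    (P : L2 (Fin m × A) →L[ℝ] L2 (Fin n × A)) (Q : L2 (Fin n × A) →L[ℝ] L2 (Fin m × A)) :
    tr' (P.comp Q) = ∑ j : Fin n, ∑ i : Fin m,
      ∑' g : A, Q (dl (j, 1)) (i, g) * P (dl (i, g)) (j, 1) := by
  rw [tr'_eq]
  refine Finset.sum_congr rfl fun j _ => ?_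
  have h := hasSum_comp P (Q (dl (j, (1 : A)))) (j, (1 : A))
  rw [ContinuousLinearMap.comp_apply, ← h.tsum_eq, h.summable.tsum_prod, tsum_fintype]

/-- **TR1.** -/
theorem tr1 : Tr1Stmt.{u} := by
  intro A _ m n P Q hP hQ
  rw [tr_comp, tr_comp, Finset.sum_comm]
  refine Finset.sum_congr rfl fun i _ => Finset.sum_congr rfl fun j _ => ?_
  rw [← Equiv.tsum_eq (Equiv.inv A)]
  refine tsum_congr fun g => ?_
  have e1 := eqv_mat hQ i j (g⁻¹) 1 g
  have e2 := eqv_mat hP j i 1 (g⁻¹) g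
  rw [inv_mul_cancel, one_mul] at e1
  rw [inv_mul_cancel, one_mul] at e2
  rw [Equiv.inv_apply, e1, e2, mul_comm]

end Pool.Agent.Helper81.VF
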