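import Pool.Agent.Helper96.VF.Goals

/-!
# Project VF (MP_6829b3_nt): the size of a class of the extremal set
-/

set_option autoImplicit false

namespace Pool.Agent.Helper81.VF

open Pool.Agent.Helper96.VF

theorem tc_congr {f g : Prop} (h : f ↔ g) (n p q : ℕ) : TC f n p q ↔ TC g n p q := by
  unfold TC
  rw [h]

open Classical in
/-- the level does not change the counts -/
theorem step1 (hCRD : CRD) (hTYC : TYC) (hR5 : R5) (hR7 : R7) (hS1A : S1A) (hS1B : S1B) (hHC : HC)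
    (n m p q : ℕ) (hm : 0 < m) (hC : Co n m p q) :
    (Ty n m → H (cc n m * n / (36 * m) / 2) = H (n / m / 2)) ∧
    (¬ Ty n m → H (cc n m * n / (36 * m)) = H (n / m)) := by
  obtain ⟨hT, -⟩ := hTYC n m p q hm hC
  have hR : Rg n p q := hC.2.2
  have hmn : m ≤ n := by
    obtain ⟨⟨j, hj⟩, -, h1, -⟩ := hC
    have : m * 1 ≤ m * 4 ^ j := Nat.mul_le_mul_left m (Nat.one_le_pow _ _ (by norm_num))
    rw [hj, mul_comm] at h1
    omega
  by_cases hA : 5 ∣ m ∧ ¬ (Ty n (m / 5) ↔ Ty n m)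
  · have hc : cc n m = 30 := by
      unfold cc
      rw [if_pos hA]
    obtain ⟨⟨m₁, rfl⟩, hne⟩ := hA
    rw [Nat.mul_div_cancel_left _ (by norm_num : 0 < 5)] at hne
    have hm₁ : 0 < m₁ := by omega
    obtain ⟨p₁, q₁, hC₁⟩ := hCRD n m₁ hm₁ (by omega)
    obtain ⟨hT₁, -⟩ := hTYC n m₁ p₁ q₁ hm₁ hC₁
    have hL : L5 p₁ q₁ p q := hR5 n m₁ p₁ q₁ p q hm₁ hC₁ hC
    have hT' : Ty n (5 * m₁) ↔ TC True n p q :=
      hT.trans (tc_congr (iff_of_true (Dvd.intro _ rfl) trivial) n p q)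
    have hne' : ¬ (TC (5 ∣ m₁) n p₁ q₁ ↔ TC True n p q) := by
      rw [← hT₁, ← hT']
      exact hne
    obtain ⟨h1, h2⟩ := hS1A _ n p₁ q₁ p q hC₁.2.2 hR hL hne'
    obtain ⟨h3, h4⟩ := hHC n (5 * m₁) p q 30 hm hC le_rfl (by norm_num)
    rw [hc]
    constructor
    · intro ht
      obtain ⟨h5, h6⟩ := h2 (hT'.1 ht)
      refine h4 (by omega) ?_
      rintro ⟨h7, h8⟩
      exact h6 ⟨h7, by omega⟩
    · intro ht
      obtain ⟨h5, h6⟩ := h1 fun h => ht (hT'.2 h)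
      exact h3 (by omega) (by omega)
  by_cases hB : 35 ∣ m ∧ ¬ (Ty n (m / 35) ↔ Ty n (m / 7)) ∧ ¬ (Ty n (m / 7) ↔ Ty n m)
  · have hc : cc n m = 35 := by
      unfold cc
      rw [if_neg hA, if_pos hB]
    obtain ⟨⟨m₃, hm₃e⟩, hne1, hne2⟩ := hB
    have hm₃ : 0 < m₃ := by omega
    have e7 : m / 7 = 5 * m₃ := by omega
    have e35 : m / 35 = m₃ := by omega
    rw [e35, e7] at hne1
    rw [e7] at hne2
    have hm7 : 7 * (5 * m₃) = m := by omega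
    obtain ⟨p₃, q₃, hC₃⟩ := hCRD n m₃ hm₃ (by omega)
    obtain ⟨p₇, q₇, hC₇⟩ := hCRD n (5 * m₃) (by omega) (by omega)
    obtain ⟨hT₃, -⟩ := hTYC n m₃ p₃ q₃ hm₃ hC₃
    obtain ⟨hT₇, -⟩ := hTYC n (5 * m₃) p₇ q₇ (by omega) hC₇
    have hL5 : L5 p₃ q₃ p₇ q₇ := hR5 n m₃ p₃ q₃ p₇ q₇ hm₃ hC₃ hC₇
    have hL7 : L7 p₇ q₇ p q := hR7 n (5 * m₃) p₇ q₇ p q (by omega) hC₇ (by rw [hm7]; exact hC)
    have hT' : Ty n m ↔ TC True n p q :=
      hT.trans (tc_congr (iff_of_true ⟨7 * m₃, by omega⟩ trivial) n p q)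
    have hT₇' : Ty n (5 * m₃) ↔ TC True n p₇ q₇ :=
      hT₇.trans (tc_congr (iff_of_true (Dvd.intro _ rfl) trivial) n p₇ q₇)
    have h1' : ¬ (TC (5 ∣ m₃) n p₃ q₃ ↔ TC True n p₇ q₇) := by
      rw [← hT₃, ← hT₇']
      exact hne1
    have h2' : ¬ (TC True n p₇ q₇ ↔ TC True n p q) := by
      rw [← hT₇', ← hT']
      exact hne2
    obtain ⟨h1, h2⟩ := hS1B _ n p₃ q₃ p₇ q₇ p q hC₃.2.2 hC₇.2.2 hR hL5 hL7 h1' h2'
    obtain ⟨h3, h4⟩ := hHC n m p q 35 hm hC (by norm_num) (by norm_num)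
    rw [hc]
    constructor
    · intro ht
      obtain ⟨h5, h6⟩ := h2 (hT'.1 ht)
      exact h4 (by omega) h6
    · intro ht
      obtain ⟨h5, h6⟩ := h1 fun h => ht (hT'.2 h)
      exact h3 (by omega) (by omega)
  · have hc : cc n m = 36 := by
      unfold cc
      rw [if_neg hA, if_neg hB]
    rw [hc, Nat.mul_div_mul_left _ _ (by norm_num : 0 < 36)]
    exact ⟨fun _ => rfl, fun _ => rfl⟩

theorem gVAL (hCRD : CRD) (hTYC : TYC) (hR5 : R5) (hR7 : R7) (hS1A : S1A) (hS1B : S1B) (hHC : HC)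
    (hGS2 : GS2) : VAL := by
  classical
  intro n m hm hmn
  obtain ⟨p, q, hC⟩ := hCRD n m hm hmn
  obtain ⟨hT, hK⟩ := hTYC n m p q hm hC
  obtain ⟨hg, hH2⟩ := hGS2 n m p q hm hC
  obtain ⟨h1, h2⟩ := step1 hCRD hTYC hR5 hR7 hS1A hS1B hHC n m p q hm hC
  have hH : 2 ≤ H (n / m) := by
    unfold H
    rw [if_neg (Nat.div_pos hmn hm).ne']
    omega
  by_cases ht : Ty n m
  · rw [if_pos ht, h1 ht]
    have htc := hT.1 ht
    obtain ⟨t1, t2, t3⟩ := htc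
    have hk : ¬ (5 ∣ m ∧ Kap (n / (m / 5))) := by
      rintro ⟨h5, h6⟩
      exact t2 ⟨h5, (hK h5).1 h6⟩
    rw [if_neg hk, hg]
    rw [if_pos t1] at hH2
    by_cases hq : 2 * q ≤ n
    · rw [if_pos ⟨t1, hq⟩]
      rw [if_pos hq] at hH2
      omega
    · rw [if_neg fun h => hq h.2]
      rw [if_neg hq] at hH2
      omega
  · rw [if_neg ht, h2 ht, hg]
    have htc : ¬ TC (5 ∣ m) n p q := fun h => ht (hT.2 h)
    have hiff : (2 * p ≤ n ∧ 2 * q ≤ n) ↔ (5 ∣ m ∧ Kap (n / (m / 5))) := by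
      constructor
      · rintro ⟨h3, h4⟩
        by_contra hcon
        apply htc
        refine ⟨h3, ?_, ?_⟩
        · rintro ⟨h5, h6⟩
          exact hcon ⟨h5, (hK h5).2 h6⟩
        · rintro ⟨-, -, h7⟩
          omega
      · rintro ⟨h5, h6⟩
        obtain ⟨h7, h8, -⟩ := (hK h5).1 h6
        exact ⟨by omega, h8⟩
    by_cases hb : 2 * p ≤ n ∧ 2 * q ≤ n
    · rw [if_pos hb, if_pos (hiff.1 hb)]
      omega
    · rw [if_neg hb, if_neg fun h => hb (hiff.2 h)]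
      omega

end Pool.Agent.Helper81.VF
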